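import Pool.Agent.Helper77.PPS.Goals

/-!
# Project PP (MP_fc6b1e_nt), part A3: sums up to `x` and sums at `s = 1 + 1/log x`
-/

namespace Pool.Agent.Helper77.PPS

open Finset Real

theorem p_mer (h1 : P_CNT) (h2 : P_TAI) : P_MER := by
  intro C
  obtain ⟨C1, hC1, hcnt⟩ := h1 C
  obtain ⟨C2, hC2, htai⟩ := h2 C
  refine ⟨C1 + C2, by linarith, fun P N hN f hf x hx ↦ ?_⟩
  obtain ⟨-, -, c3, -⟩ := hcnt P N hN
  obtain ⟨t1, -, t3⟩ := htai P N hN
  have hlx : 0 < log x := log_pos (by linarith)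
  set s : ℝ := 1 + 1 / log x with hs
  have hs1 : 1 < s := by
    rw [hs]
    have := one_div_pos.2 hlx
    linarith
  have hsum : Summable fun q ↦ (N q : ℝ) ^ (-s) := t1 s hs1
  have hnn : ∀ q, 0 ≤ (N q : ℝ) ^ (-s) := fun q ↦ Real.rpow_nonneg (Nat.cast_nonneg _) _
  have hbd : ∀ q, ‖f q * (N q : ℝ) ^ (-s)‖ ≤ (N q : ℝ) ^ (-s) := by
    intro q
    rw [Real.norm_eq_abs, abs_mul, abs_of_nonneg (hnn q)]
    exact mul_le_of_le_one_left (hnn q) (hf q)
  have hsf : Summable fun q ↦ f q * (N q : ℝ) ^ (-s) := Summable.of_norm_bounded hsum hbd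
  refine ⟨hsf, ?_⟩
  have hsplit : ∑' q, f q * (N q : ℝ) ^ (-s) = ∑ q ∈ pr N x, f q * (N q : ℝ) ^ (-s) +
      ∑' q : {q : P | x < N q}, f q.1 * (N q.1 : ℝ) ^ (-s) := by
    have h3 := hsf.sum_add_tsum_compl (s := pr N x)
    rw [← h3]
    congr 1
    have hset : ((pr N x : Finset P) : Set P)ᶜ = {q | x < N q} := by
      ext q
      rw [Set.mem_compl_iff, Finset.mem_coe, mem_pr hN, Set.mem_ofPred_eq, not_le]
    exact tsum_congr_set_coe (fun q ↦ f q * (N q : ℝ) ^ (-s)) hset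
  have b1 : |∑ q ∈ pr N x, f q * (1 / (N q : ℝ) - (N q : ℝ) ^ (-s))| ≤ C1 := by
    have h4 : ∀ q ∈ pr N x, |f q * (1 / (N q : ℝ) - (N q : ℝ) ^ (-s))| ≤
        log (N q) / N q / log x := by
      intro q _
      have h2 : (2 : ℝ) ≤ N q := by exact_mod_cast hN.two q
      have hpos : (0 : ℝ) < N q := by linarith
      have hexp : (N q : ℝ) ^ (-s) = 1 / (N q : ℝ) * exp (-(log (N q) / log x)) := by
        have h8 : (N q : ℝ) ^ (-(1 / log x)) = exp (-(log (N q) / log x)) := by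
          rw [rpow_def_of_pos hpos]
          congr 1
          ring
        rw [show -s = -1 + -(1 / log x) by rw [hs]; ring, rpow_add hpos, rpow_neg_one, h8,
          one_div (N q : ℝ)]
      have hle : exp (-(log (N q) / log x)) ≤ 1 := by
        rw [exp_le_one_iff, neg_nonpos]
        exact div_nonneg (log_nonneg (by linarith)) hlx.le
      have hge : 1 - log (N q) / log x ≤ exp (-(log (N q) / log x)) := by
        have := add_one_le_exp (-(log (N q) / log x))
        linarith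
      have h5 : 0 ≤ 1 / (N q : ℝ) - (N q : ℝ) ^ (-s) := by
        rw [hexp]
        have : 1 / (N q : ℝ) * exp (-(log (N q) / log x)) ≤ 1 / (N q : ℝ) * 1 :=
          mul_le_mul_of_nonneg_left hle (by positivity)
        linarith
      rw [abs_mul, abs_of_nonneg h5]
      refine (mul_le_of_le_one_left h5 (hf q)).trans ?_
      rw [hexp]
      have h6 : 1 / (N q : ℝ) * (1 - log (N q) / log x) ≤
          1 / (N q : ℝ) * exp (-(log (N q) / log x)) :=
        mul_le_mul_of_nonneg_left hge (by positivity)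
      have h7 : log (N q) / N q / log x = 1 / (N q : ℝ) - 1 / (N q : ℝ) * (1 - log (N q) / log x) := by
        ring
      rw [h7]
      linarith
    refine (Finset.abs_sum_le_sum_abs _ _).trans ((Finset.sum_le_sum h4).trans ?_)
    rw [← Finset.sum_div, div_le_iff₀ hlx]
    exact c3 x hx
  have b2 : |∑' q : {q : P | x < N q}, f q.1 * (N q.1 : ℝ) ^ (-s)| ≤ C2 := by
    have h5 : Summable fun q : {q : P | x < N q} ↦ (N q.1 : ℝ) ^ (-s) :=
      hsum.subtype _
    have h6 : |∑' q : {q : P | x < N q}, f q.1 * (N q.1 : ℝ) ^ (-s)| ≤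
        ∑' q : {q : P | x < N q}, (N q.1 : ℝ) ^ (-s) := by
      rw [← Real.norm_eq_abs]
      exact tsum_of_norm_bounded h5.hasSum fun q ↦ hbd q.1
    exact h6.trans (t3 x hx)
  have e1 : ms N f x - ∑' q, f q * (N q : ℝ) ^ (-s) =
      ∑ q ∈ pr N x, f q * (1 / (N q : ℝ) - (N q : ℝ) ^ (-s)) -
        ∑' q : {q : P | x < N q}, f q.1 * (N q.1 : ℝ) ^ (-s) := by
    rw [hsplit]
    unfold ms
    have h7 : ∑ q ∈ pr N x, f q * (1 / (N q : ℝ) - (N q : ℝ) ^ (-s)) =
        ∑ q ∈ pr N x, f q / N q - ∑ q ∈ pr N x, f q * (N q : ℝ) ^ (-s) := by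
      rw [← Finset.sum_sub_distrib]
      exact Finset.sum_congr rfl fun q _ ↦ by ring
    rw [h7]
    ring
  rw [e1]
  exact (abs_sub _ _).trans (add_le_add b1 b2)

end Pool.Agent.Helper77.PPS
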