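import Pool.Agent.Helper77.PPS.HYP
import Pool.Agent.Helper77.PPS.PMER
import Pool.Agent.Helper38.RS.Asm
import Pool.Agent.Helper16.PPS.NSPL
import Pool.Agent.Helper19.PPS.PTAI
import Pool.Agent.Helper2.PPS.PLAB
import Pool.Agent.Helper28.PPS.HG
import Pool.Agent.Helper39.PPS.PHTE
import Pool.Agent.Helper46.PPS.NCHB
import Pool.Agent.Helper48.PPS.NLOW
import Pool.Agent.Helper50.PPS.HHT
import Pool.Agent.Helper54.PPS.PLOW
import Pool.Agent.Helper56.PPS.NREC
import Pool.Agent.Helper59.PPS.HCHE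
import Pool.Agent.Helper60.PPS.NLAB
import Pool.Agent.Helper74.PPS.HMER
import Pool.Agent.Helper79.PPS.PCNT
import Pool.Agent.Helper8.PPS.PDBL
import Pool.Agent.Helper9.PPS.PHTU
import Pool.Agent.Helper15.PPS.NCHS
import Pool.Agent.Helper93.PPS.NCHL
import Pool.Agent.Helper4.PPS.NHYP
import Pool.Agent.Helper90.LE.CYC
import Pool.Agent.Helper32.PP.A1KEY
import Pool.Agent.Helper53.PP.A1WTE
import Pool.Agent.Helper26.PP.A1UNF
import Pool.Agent.Helper61.PP.A1RPS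
import Pool.Agent.Helper33.PP.A1PAR
import Pool.Agent.Helper54.PP.A1REP
import Pool.Agent.Helper50.PP.A1ORT
import Pool.Agent.Helper19.PP.A1SUM
import Pool.Agent.Helper60.PP.A1UNB
import Pool.Agent.Helper49.PP.A1WTS
import Pool.Agent.Helper97.PP.A1LOG
import Pool.Agent.Helper61.PP.A1PRI
import Pool.Agent.Helper14.PP.A1FIX

/-!
# Project PP (MP_fc6b1e_nt), parts A1 and A3: assembly
-/

namespace Pool.Agent.Helper77.PPS

open Pool.Agent.Helper94.PP

theorem a1_sum : A1_SUM :=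
  Pool.Agent.Helper19.PP.goalSUM Pool.Agent.Helper26.PP.goalUNF
    (Pool.Agent.Helper33.PP.goalPAR Pool.Agent.Helper32.PP.goalKEY Pool.Agent.Helper26.PP.goalUNF
      Pool.Agent.Helper61.PP.goalRPS)
    (Pool.Agent.Helper54.PP.goalREP Pool.Agent.Helper61.PP.goalRPS) Pool.Agent.Helper50.PP.goalORT

theorem a1_unb : A1_UNB := Pool.Agent.Helper60.PP.goalUNB a1_sum Pool.Agent.Helper53.PP.goalWTE

theorem a1_log : A1_LOG := Pool.Agent.Helper97.PP.goalLOG a1_sum Pool.Agent.Helper49.PP.goalWTS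

theorem a1_pri : A1_PRI := Pool.Agent.Helper61.PP.goalPRI a1_log

theorem a1_fix : A1_FIX := Pool.Agent.Helper14.PP.goalFIX

theorem p_cnt : P_CNT := Pool.Agent.Helper79.PPS.p_cnt

theorem p_tai : P_TAI := Pool.Agent.Helper19.PPS.p_tai p_cnt

theorem p_mer' : P_MER := p_mer p_cnt p_tai

theorem p_htu : P_HTU := Pool.Agent.Helper9.PPS.p_htu

theorem p_hte : P_HTE := Pool.Agent.Helper39.PPS.p_hte p_cnt p_htu

theorem p_low : P_LOW := Pool.Agent.Helper54.PPS.p_low p_cnt p_tai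

theorem p_dbl : P_DBL := Pool.Agent.Helper8.PPS.p_dbl p_cnt

theorem p_lab : P_LAB := Pool.Agent.Helper2.PPS.p_lab p_htu p_low p_dbl

theorem n_chb : N_CHB := Pool.Agent.Helper46.PPS.n_chb

theorem n_rec : N_REC :=
  Pool.Agent.Helper56.PPS.n_rec Pool.Agent.Helper32.PP.goalKEY Pool.Agent.Helper53.PP.goalWTE
    Pool.Agent.Helper26.PP.goalUNF Pool.Agent.Helper3.RS.s_rep Pool.Agent.Helper38.RS.s_gfb
    Pool.Agent.Helper24.RS.s_lsm

theorem n_chl : N_CHL := Pool.Agent.Helper93.PPS.n_chl n_rec n_chb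

theorem n_chs : N_CHS := Pool.Agent.Helper15.PPS.n_chs n_chl n_chb

theorem n_spl : N_SPL :=
  Pool.Agent.Helper16.PPS.n_spl n_chb p_mer' Pool.Agent.Helper38.RS.s_psm
    Pool.Agent.Helper88.RS.s_dg1

theorem n_lab : N_LAB := Pool.Agent.Helper60.PPS.n_lab n_chb n_spl

theorem n_low : N_LOW := Pool.Agent.Helper48.PPS.n_low p_lab n_chb n_chs n_spl

theorem h_che : H_CHE := Pool.Agent.Helper59.PPS.h_che p_cnt

theorem h_ht : H_HT := Pool.Agent.Helper50.PPS.h_ht p_hte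

theorem h_mer : H_MER := Pool.Agent.Helper74.PPS.h_mer p_cnt

theorem h_g : H_G := Pool.Agent.Helper28.PPS.h_g

theorem n_hyp : N_HYP :=
  Pool.Agent.Helper4.PPS.n_hyp n_lab h_che h_ht h_mer h_g Pool.Agent.Helper90.LE.l_cyc

end Pool.Agent.Helper77.PPS
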