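import Pool.Agent.Helper77.PPS.GoalsH
import Pool.Agent.Helper76.PP.Goals3
import Pool.Agent.Helper42.PP.Goals2
import Pool.Agent.Helper11.PP.GoalsE

/-!
# Project PP (MP_fc6b1e_nt): the analytic hypotheses of the systems of part B
-/

namespace Pool.Agent.Helper77.PPS

open NumberField Polynomial Module IsDedekindDomain Pool.Agent.Helper51.RP
open Pool.Agent.Helper38.RS (pz hf Gf absN)
open Pool.Agent.Helper42.PP (Spl Base Tau Sit)
open Pool.Agent.Helper17.PP (Sys)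
open Pool.Agent.Helper51.PP (A2_BL1 A2_BL2)
open Pool.Agent.Helper94.PP (A1_UNB)
open Pool.Agent.Helper76.PP (B_BLU B_BLH B_SM B_KUM B_KAP psK)
open Pool.Agent.Helper11.PP (HYP Slow)
open Pool.Agent.Helper11.LE (L_CYC)

theorem mono_bound (K K' i j m : ℕ) (e s : ℝ) (hK : 1 ≤ K) (hKK : K ≤ K') (he : 0 ≤ e)
    (hs : 1 ≤ s) :
    (K : ℝ) * 2 ^ (i + j) * s ^ K * (2 : ℝ) ^ (-(m : ℝ) / K) * e ≤
      (K' : ℝ) * 2 ^ (i + j) * s ^ K' * (2 : ℝ) ^ (-(m : ℝ) / K') * e := by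
  have hK0 : (0 : ℝ) < K := by exact_mod_cast hK
  have hKr : (K : ℝ) ≤ K' := by exact_mod_cast hKK
  have hK0' : (0 : ℝ) < K' := hK0.trans_le hKr
  have h1 : s ^ K ≤ s ^ K' := pow_le_pow_right₀ hs hKK
  have h2 : (2 : ℝ) ^ (-(m : ℝ) / K) ≤ (2 : ℝ) ^ (-(m : ℝ) / K') := by
    refine Real.rpow_le_rpow_of_exponent_le (by norm_num) ?_
    rw [neg_div, neg_div, neg_le_neg_iff]
    exact div_le_div_of_nonneg_left (by positivity) hK0 hKr
  have hs0 : 0 ≤ s := by linarith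
  gcongr

theorem fib_bound {p : ℕ} [Fact p.Prime] {K M K₁ M₁ : Type} [Field K] [NumberField K] [Field M]
    [NumberField M] [Field K₁] [NumberField K₁] [Field M₁] [NumberField M₁] [Algebra K M]
    [Algebra K K₁] [Algebra K M₁] [Algebra M M₁] [Algebra K₁ M₁] {ε : K₁} {δ : M ≃ₐ[K] M}
    {P : (ZMod p)[X]} (B : Base p K M K₁ M₁ ε δ P) (b₀ : HeightOneSpectrum (𝓞 K)) :
    {q : B.LP | q.1.1 = b₀}.Finite ∧ {q : B.LP | q.1.1 = b₀}.ncard ≤ Fintype.card (ZMod p)ˣ := by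
  classical
  have hinj : Set.InjOn (fun q : B.LP ↦ q.1.2) {q : B.LP | q.1.1 = b₀} := by
    intro q hq q' hq' h
    have h1 : q.1.1 = b₀ := hq
    have h2 : q'.1.1 = b₀ := hq'
    exact Subtype.ext (Prod.ext (h1.trans h2.symm) h)
  have hfin : {q : B.LP | q.1.1 = b₀}.Finite :=
    Set.Finite.of_finite_image (Set.toFinite _) hinj
  refine ⟨hfin, ?_⟩
  rw [← hinj.ncard_image]
  calc ((fun q : B.LP ↦ q.1.2) '' {q : B.LP | q.1.1 = b₀}).ncard
      ≤ (Set.univ : Set (ZMod p)ˣ).ncard := Set.ncard_le_ncard (Set.subset_univ _)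
    _ = Fintype.card (ZMod p)ˣ := by rw [Set.ncard_univ, Nat.card_eq_fintype_card]

theorem hyp (h1 : N_HYP) (h2 : N_LOW) (h3 : H_G) (h4 : A2_BL1) (h5 : A2_BL2) (h6 : A1_UNB)
    (h7 : B_BLU) (h8 : B_BLH) (h9 : B_SM) (h10 : B_KUM) (h11 : B_KAP) (h12 : Pool.Agent.Helper42.PP.P_LAB)
    (h13 : L_CYC) : HYP := by
  classical
  intro p _ K M K₁ M₁ _ _ _ _ _ _ _ _ _ _ _ _ _ _ _ _ _ _ _ ε hT m δ ζ Φ P hP hδ hm hTor
    hirr hft B
  have hcyc := h13 p K K₁ ε ⟨hT.prim, inferInstance, hT.gen⟩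
  have hp1 : 1 < p := (Fact.out : p.Prime).one_lt
  have hd0 : 0 < finrank K K₁ := finrank_pos
  set κ : ℝ := ((p : ℝ) - 1) / finrank K K₁ with hκ
  have hκ1 : 1 ≤ κ := by
    rw [hκ, le_div_iff₀ (by exact_mod_cast hd0), one_mul]
    have h : finrank K K₁ ≤ p - 1 := Nat.le_of_dvd (by omega) hcyc.1
    have h' : ((finrank K K₁ : ℕ) : ℝ) ≤ ((p - 1 : ℕ) : ℝ) := by exact_mod_cast h
    rwa [Nat.cast_sub hp1.le, Nat.cast_one] at h'
  obtain ⟨g1, g2, g3, -⟩ := h3 κ hκ1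
  have h2k : (1 : ℝ) ≤ 2 ^ (κ - 1) := Real.one_le_rpow (by norm_num) (by linarith)
  refine ⟨gK κ, 2 ^ (κ - 1), ⟨g1, fun Y X h ↦ ?_, fun X _ ↦ g3 X⟩, ?_⟩
  · calc gK κ Y ≤ gK κ X := g2 Y X h
      _ = 1 * gK κ X := (one_mul _).symm
      _ ≤ 2 ^ (κ - 1) * gK κ X :=
        mul_le_mul_of_nonneg_right h2k (by linarith [g1 X])
  intro L T aτ E haτ
  obtain ⟨-, -, ⟨tr, htr⟩, ⟨ψ₁, hψ₁⟩, hk⟩ := h11 p ℂ_[p] m ζ Φ P hP
  have hpsK : psK tr ψ₁ ≠ 1 := ((hk tr htr).2 ψ₁ hψ₁).2.2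
  obtain ⟨Ka, hKa⟩ := h1 p ℂ_[p] K M K₁ M₁ ε δ P B L T aτ E hT
    ((Fintype.card (AdjoinRoot P) : ℝ) + 4)
  have hSVa := hKa Ka le_rfl
  obtain ⟨X1, hC1, hV1⟩ := h7 p ℂ_[p] K M K₁ M₁ ε hT m δ ζ Φ P hP hδ hm B L T aτ E tr ψ₁ htr hψ₁
  obtain ⟨X2, hC2, hV2⟩ := h8 p ℂ_[p] K M K₁ M₁ ε hT m δ ζ Φ P hP hδ hm B L T aτ E ψ₁ hψ₁
  have hcK : IsTotallyComplex K₁ := isTotallyComplex_of_algebra K K₁
  have hcM : IsTotallyComplex M₁ := isTotallyComplex_of_algebra K M₁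
  obtain ⟨Kb, hKb1, hKb⟩ := h4 p B.LP (HeightOneSpectrum (𝓞 K)) (AdjoinRoot P)
    (Fin B.r → AdjoinRoot P) (Fin B.r → AdjoinRoot P) (Fin B.t → ZMod p) (B.sys E) (psK tr ψ₁) M₁
    (h6 M₁) Ka (Fintype.card (ZMod p)ˣ) hSVa.che (fun b₀ ↦ fib_bound B b₀) (ZMod p)ˣ
    (fun q ↦ q.1.2) _ _ _ _ X1 hC1 hV1
  obtain ⟨Kc, hKc1, hKc⟩ := h5 p B.LP (HeightOneSpectrum (𝓞 K)) (AdjoinRoot P)
    (Fin B.r → AdjoinRoot P) (Fin B.r → AdjoinRoot P) (Fin B.t → ZMod p) (B.sys E) ψ₁ K₁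
    (h6 K₁) Ka (Fintype.card (ZMod p)ˣ) hSVa.che (fun b₀ ↦ fib_bound B b₀) (ZMod p)ˣ
    (fun q ↦ q.1.2) _ _ _ _ X2 hC2 hV2
  obtain ⟨Kd, hKd1, hKd⟩ := h9 p ℂ_[p] K M K₁ M₁ ε hT m δ ζ Φ P hP hδ hm B L T aτ E tr ψ₁ htr hψ₁
  set K' : ℕ := max (max Ka Kb) (max Kc Kd) with hK'
  have hKa' : Ka ≤ K' := (le_max_left _ _).trans (le_max_left _ _)
  have hKb' : Kb ≤ K' := (le_max_right _ _).trans (le_max_left _ _)
  have hKc' : Kc ≤ K' := (le_max_left _ _).trans (le_max_right _ _)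
  have hKd' : Kd ≤ K' := (le_max_right _ _).trans (le_max_right _ _)
  have hSV := hKa K' hKa'
  refine ⟨psK tr ψ₁, ψ₁, K', ?_, ?_⟩
  · exact
      { one_le := hSV.one_le
        ψ_ne := hpsK
        ψ₁_ne := hψ₁
        che := hSV.che
        g_one := hSV.g_one
        g_mono := hSV.g_mono
        ht := hSV.ht
        mers := hSV.mers
        mern := hSV.mern
        sm := by
          have h := hKd K' hKd'
          unfold Pool.Agent.Helper76.PP.SmF at h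
          intro D y χ n hn hD hinj hne hx
          have h' := h D y χ n hn hD hinj hne hx
          convert h' using 2
          ext q
          simp only [Finset.mem_filter]
        kum := h10 p ℂ_[p] K M K₁ M₁ ε hT m δ ζ Φ P hP hδ hm B L T aτ E
        bl₁ := by
          intro i j t y c α β Y hj ht hY hα hβ hD
          refine (hKb i j t y c α β Y hj ht hY hα hβ hD).trans ?_
          have hm := mono_bound Kb K' i j (min i j) (Real.exp (-((2 : ℝ) ^ (i + j) / (2 * Y))))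
            ((i : ℝ) + 1) hKb1 hKb' (Real.exp_pos _).le (by linarith [Nat.cast_nonneg (α := ℝ) i])
          rw [Nat.cast_min] at hm
          exact hm
        bl₂ := by
          intro i j s' α β Y hi hj hs hY hα hβ
          refine (hKc i j s' α β Y hi hj hs hY hα hβ).trans ?_
          have hi' : (1 : ℝ) ≤ i := by exact_mod_cast hi
          have hm := mono_bound Kc K' i j (min i j) (Real.exp (-((2 : ℝ) ^ (i + j) / (2 * Y))))
            ((i : ℝ) + j) hKc1 hKc' (Real.exp_pos _).le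
            (by linarith [Nat.cast_nonneg (α := ℝ) j])
          rw [Nat.cast_min] at hm
          exact hm }
  · have hSit : Sit p ℂ_[p] K M K₁ M₁ ε δ P :=
      { tcK := inferInstance
        st1 := inferInstance
        st2 := inferInstance
        gM := inferInstance
        gK := inferInstance
        gMK := inferInstance
        tow := hT
        phi := ⟨ζ, Φ, by rw [hm]; exact hP⟩
        ord := by rw [hm]; exact hδ
        tor := hTor }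
    obtain ⟨-, -, -, hγ⟩ := h12 p ℂ_[p] K M K₁ M₁ ε δ P hSit L T B aτ E haτ
    obtain ⟨b, hb1, hb2⟩ := hγ (B.sys E).cl₀
    exact h2 p ℂ_[p] K M K₁ M₁ ε δ P B L T aτ E ⟨b, hb1, hb2⟩

end Pool.Agent.Helper77.PPS
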