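import Pool.Agent.Helper77.PPS.GoalsN

/-!
# Project PP (MP_fc6b1e_nt), part A3: the sieve hypotheses of `Sys.Hyp` and the lower bound for the family
-/

namespace Pool.Agent.Helper77.PPS

open NumberField Polynomial Module IsDedekindDomain Pool.Agent.Helper51.RP
open Pool.Agent.Helper38.RS (pz hf Gf absN)
open Pool.Agent.Helper42.PP (Spl Base Tau)
open Pool.Agent.Helper17.PP (Sys)

/-- **H_CHE** (the field `che`).

PROOF (from `P_CNT`). The primes of the block `j` have norm `≤ 2^(j+1)`, so there are at most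
`C₁ 2^(j+1)/((j+1) log 2)` of them, and `1/N q ≤ 2^(-j)`: the sum is at most `2 C₁/(j log 2)`. -/
def H_CHE : Prop :=
  ∀ C : ℝ, ∃ K₀ : ℝ, ∀ (p : ℕ) (B B₀ k U Λ W : Type) [Field k] [AddCommGroup U] [Module k U]
    [AddCommGroup Λ] [Module k Λ] [AddCommGroup W] (S : Sys p B B₀ k U Λ W), PSys S.N C →
  ∀ j : ℕ, 1 ≤ j → ∑ q ∈ S.blk j, (1 : ℝ) / S.N q ≤ K₀ / j

/-- **H_HT** (the field `ht`). Let the labelled primes satisfy Chebyshev's bound and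
`∑_{N q ≤ x} 1/N q ≤ κ log log x + C` for `x ≥ 2`, `κ ≥ 1`.

PROOF (from `P_HTE`). The sum over the `b ⊆ P` is at most the convergent sum over all `b` (`f ≥ 0`;
`S.nm = nb S.N`, `S.upto Y = pr S.N Y`). Let `Y ≥ 2`: by `P_HTE` it is at most
`C₁ (Y/log Y) exp(∑_{N q ≤ Y} f q/N q) = C₁ (Y/log Y) exp(∑_{N q ≤ Y} 1/N q) exp(∑_{N q ≤ Y} (f q - 1)/N q)`
and `(1/log Y) exp(∑ 1/N q) ≤ e^C (log Y)^(κ-1) ≤ e^C gK κ Y`; `min 1 Y = 1`. For `0 < Y ≤ 2` it is at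
most `C₁ Y² ≤ 2 C₁ Y min(1, Y)`, `gK κ Y ≥ 1`, and the last exponential is at least
`exp(-∑_{N q ≤ 2} 1/N q) ≥ exp(-κ log log 2 - C) ` (there are only the primes of norm `2`, and only for
`Y = 2`); it is `1` for `Y < 2`. -/
def H_HT : Prop :=
  ∀ C κ A : ℝ, 1 ≤ κ → ∃ K₀ : ℝ, ∀ (p : ℕ) (B B₀ k U Λ W : Type) [Field k] [AddCommGroup U]
    [Module k U] [AddCommGroup Λ] [Module k Λ] [AddCommGroup W] (S : Sys p B B₀ k U Λ W),
    PSys S.N C → (∀ x : ℝ, 2 ≤ x → ms S.N (fun _ ↦ 1) x ≤ κ * Real.log (Real.log x) + C) →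
  ∀ (f : B → ℝ), (∀ q, 0 ≤ f q ∧ f q ≤ A) → ∀ (Y : ℝ), 0 < Y → ∀ P : Finset B,
    ∑ b ∈ P.powerset, (∏ q ∈ b, f q) * Real.exp (-(S.nm b / Y)) ≤
      K₀ * (Y * min 1 Y * gK κ Y) * Real.exp (∑ q ∈ S.upto Y, (f q - 1) / S.N q)

open Classical in
/-- **H_MER** (the fields `mers`, `mern`). If `∑_{N q ≤ x, q ∈ A} 1/N q = κ log log x + O(1)` then
`∑_{q ∈ A, 2^m ≤ N q < 2^n} 1/N q ≥ κ log(n/m) - O(1)`.

PROOF (from `P_CNT`). `bl q < n ↔ N q < 2^n`, `m ≤ bl q ↔ 2^m ≤ N q` (`Nat.log`). The sum is at least the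
sum over `2^m < N q ≤ 2^n` minus the sum over `N q = 2^n`. The first is
`ms S.N 1_A (2^n) - ms S.N 1_A (2^m) ≥ κ (log(n log 2) - log(m log 2)) - 2 C`, the second is at most
`2^(-n) C₁ 2^n/(n log 2) ≤ 2 C₁` by `P_CNT` (1). -/
def H_MER : Prop :=
  ∀ C κ : ℝ, ∃ K₀ : ℝ, ∀ (p : ℕ) (B B₀ k U Λ W : Type) [Field k] [AddCommGroup U] [Module k U]
    [AddCommGroup Λ] [Module k Λ] [AddCommGroup W] (S : Sys p B B₀ k U Λ W) (A : Set B),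
    PSys S.N C → (∀ x : ℝ, 2 ≤ x → |ms S.N (A.indicator fun _ ↦ 1) x -
      κ * Real.log (Real.log x)| ≤ C) →
  ∀ m n : ℕ, 1 ≤ m → m ≤ n → κ * Real.log (n / m) - K₀ ≤
    ∑ q ∈ S.below n with q ∈ A ∧ m ≤ S.bl q, (1 : ℝ) / S.N q

/-- **H_G** (the function `g`).

PROOF. `gK κ Y = (max 1 (log (max 1 Y)))^(κ-1)`, `κ - 1 ≥ 0`, and `max 1 (log (max 1 Y)) ≥ 1` is
nondecreasing in `Y`. Doubling: `log (max 1 (2Y)) ≤ log(2 max 1 Y) ≤ 2 max 1 (log (max 1 Y))`. -/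
def H_G : Prop :=
  ∀ κ : ℝ, 1 ≤ κ → (∀ Y : ℝ, 1 ≤ gK κ Y) ∧ (∀ Y X : ℝ, Y ≤ X → gK κ Y ≤ gK κ X) ∧
    (∀ Y : ℝ, gK κ (2 * Y) ≤ 2 ^ (κ - 1) * gK κ Y) ∧
    ∀ Y : ℝ, 2 ≤ Y → Real.log Y ^ (κ - 1) ≤ gK κ Y

open Classical in
/-- The fields `che`, `g_one`, `g_mono`, `ht`, `mers`, `mern` of `Sys.Hyp`. -/
structure SV {p : ℕ} {B B₀ k U Λ W : Type} [Field k] [AddCommGroup U] [Module k U]
    [AddCommGroup Λ] [Module k Λ] [AddCommGroup W] (S : Sys p B B₀ k U Λ W) (g : ℝ → ℝ) (A : ℝ)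
    (K : ℕ) : Prop where
  one_le : 1 ≤ K
  che : ∀ j : ℕ, 1 ≤ j → ∑ q ∈ S.blk j, (1 : ℝ) / S.N q ≤ K / j
  g_one : ∀ Y, 1 ≤ g Y
  g_mono : ∀ Y X, Y ≤ X → g Y ≤ K * g X
  g_dbl : ∀ Y, g (2 * Y) ≤ K * g Y
  ht : ∀ (f : B → ℝ), (∀ q, 0 ≤ f q ∧ f q ≤ A) → ∀ (Y : ℝ), 0 < Y →
    ∀ P : Finset B, ∑ b ∈ P.powerset, (∏ q ∈ b, f q) * Real.exp (-(S.nm b / Y)) ≤
      K * (Y * min 1 Y * g Y) * Real.exp (∑ q ∈ S.upto Y, (f q - 1) / S.N q)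
  mers : ∀ m n : ℕ, 1 ≤ m → m ≤ n → (1 / K : ℝ) * Real.log (n / m) - K ≤
    ∑ q ∈ S.below n with S.spl q ∧ m ≤ S.bl q, (1 : ℝ) / S.N q
  mern : ∀ m n : ℕ, 1 ≤ m → m ≤ n → (1 / K : ℝ) * Real.log (n / m) - K ≤
    ∑ q ∈ S.below n with ¬ S.spl q ∧ m ≤ S.bl q, (1 : ℝ) / S.N q

/-- **N_HYP** (the sieve hypotheses for the system of a `Base`), with `κ = (p-1)/[K₁ : K] ≥ 1`.

PROOF (from `N_LAB`, `H_CHE`, `H_HT`, `H_MER`, `H_G`, `LE.L_CYC`). `[K₁ : K]` divides `p - 1` (`L_CYC`, `Cyc` follows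
from `Tower`), so `κ ≥ 1`. `S.N q = nv q.1.1`. `che`, `ht` by `H_CHE`, `H_HT` and the first bound of `N_LAB`
(upper half), `mers` by `H_MER` with `A` the visible primes and `κ_s = (p-1)/[M₁ : K] > 0`, `mern` with `A`
the complement, `κ_n = (p-1)/[K₁ : K] - (p-1)/[M₁ : K] > 0`, since `[M₁ : K] = [M₁ : K₁] [K₁ : K] > [K₁ : K]`
(`Tower.nt`); the indicator function of the complement is `1` minus that of the visible primes. All the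
inequalities remain true for larger `K`: `log(n/m) ≥ 0`, `K ≥ 1/κ_s, 1/κ_n`, the right sides of `che`,
`g_mono`, `g_dbl`, `ht` are nondecreasing in `K` (`g ≥ 1 > 0`). -/
def N_HYP : Prop :=
  ∀ (p : ℕ) [Fact p.Prime] (k : Type) [NormedField k] (K M K₁ M₁ : Type) [Field K]
    [NumberField K] [Field M] [NumberField M] [Field K₁] [NumberField K₁] [Field M₁]
    [NumberField M₁] [Algebra K M] [Algebra K K₁] [Algebra K M₁] [Algebra M M₁] [Algebra K₁ M₁]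
    [IsScalarTower K M M₁] [IsScalarTower K K₁ M₁] [IsGalois K M] [IsGalois K K₁] [IsGalois K M₁]
    (ε : K₁) (δ : M ≃ₐ[K] M) (P : (ZMod p)[X]) [Fact (Irreducible P)]
    (B : Base p K M K₁ M₁ ε δ P) (L : Pool.Agent.Helper51.SigLeo.IwasawaLog p k)
    (T : Set (K →+* k)) (aτ : K₁ˣ) (E : Tau B L T aτ),
    Pool.Agent.Helper42.RD.Tower p K M K₁ M₁ ε →
  ∀ A : ℝ, ∃ K₀ : ℕ, ∀ K' : ℕ, K₀ ≤ K' →
    SV (B.sys E) (gK (((p : ℝ) - 1) / finrank K K₁)) A K'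

open Classical in
/-- **N_LOW** (the family is large). If the family is not empty then
`∑_{b ∈ Fam} exp(-N(b)/X) ≥ c X g(X)` for large `X`.

PROOF (from `P_LAB`, `N_CHB`, `N_CHS`, `N_SPL`). `P_LAB` for the primes of `K`, `N = nv`, `V = calP = Spl K₁ S`
(`ChLow` by `N_CHS` with `E = K₁`, `a = p - 1 > 0`; `K₁ ⊇ K` is totally complex),
`W = Fin t → ZMod p`, `c(v) = (B.cl j v)_j` and `τ = cl₀`: `τ` is in the span because for some `b` in the family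
`τ = ∑_{q ∈ b} e_q c(v_q)`. To `e ∈ labs p nv V c τ X` corresponds the set `b = {(v, e_v) : v ∈ supp e}` of
labelled primes, in the family and with `nm b = nb nv (supp e) ≤ X`; this map is injective, and the `b` are
subsets of `upto X`. So the sum over `P = upto X` is at least `e^(-1) #labs ≥ e^(-1) c₁ mag nv f X`,
`f = (p-1) 1_V`, and by `N_SPL` `ms nv f X ≥ κ log log X - C`, so for `X ≥ e`
`mag nv f X ≥ e^(-C) X (log X)^(κ-1) = e^(-C) X gK κ X`. -/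
def N_LOW : Prop :=
  ∀ (p : ℕ) [Fact p.Prime] (k : Type) [NormedField k] (K M K₁ M₁ : Type) [Field K]
    [NumberField K] [IsTotallyComplex K] [Field M] [NumberField M] [Field K₁] [NumberField K₁]
    [Field M₁] [NumberField M₁] [Algebra K M] [Algebra K K₁] [Algebra K M₁] [Algebra M M₁]
    [Algebra K₁ M₁] [IsScalarTower K M M₁] [IsScalarTower K K₁ M₁] [IsGalois K M] [IsGalois K K₁]
    [IsGalois K M₁] (ε : K₁) (δ : M ≃ₐ[K] M) (P : (ZMod p)[X]) [Fact (Irreducible P)]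
    (B : Base p K M K₁ M₁ ε δ P) (L : Pool.Agent.Helper51.SigLeo.IwasawaLog p k)
    (T : Set (K →+* k)) (aτ : K₁ˣ) (E : Tau B L T aτ), (∃ b, (B.sys E).Fam b) →
  ∃ c X₀ : ℝ, 0 < c ∧ ∀ X : ℝ, X₀ ≤ X → ∃ P' : Finset B.LP,
    c * (X * gK (((p : ℝ) - 1) / finrank K K₁) X) ≤
      ∑ b ∈ P'.powerset with (B.sys E).Fam b, Real.exp (-((B.sys E).nm b / X))

end Pool.Agent.Helper77.PPS
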