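import Mathlib

/-!
# Project PP (MP_fc6b1e_nt, density theorem), part A3 (sieve): definitions

An abstract system of primes: a type `P` with a norm `N : P → ℕ`, `N q ≥ 2`, which satisfies Chebyshev's
upper bound. Squarefree ideals are the finite sets `b` of primes, with norm `nb N b = ∏_{q ∈ b} N q`;
multiplicative functions are `wt f b = ∏_{q ∈ b} f q`.
-/

namespace Pool.Agent.Helper77.PPS

open Finset Real

/-- Primes with norms `N q ≥ 2` which satisfy Chebyshev's upper bound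
`∑_{N q ≤ x} log(N q) ≤ C x` (for all finite sets of such primes). -/
structure PSys {P : Type} (N : P → ℕ) (C : ℝ) : Prop where
  two : ∀ q, 2 ≤ N q
  cheb : ∀ (x : ℝ) (F : Finset P), 1 ≤ x → (∀ q ∈ F, (N q : ℝ) ≤ x) →
    ∑ q ∈ F, log (N q) ≤ C * x

open Classical in
/-- The finite set of the primes of norm `≤ x` (`mem_pr`). -/
noncomputable def pr {P : Type} (N : P → ℕ) (x : ℝ) : Finset P :=
  if h : {q : P | (N q : ℝ) ≤ x}.Finite then h.toFinset else ∅

/-- The norm of a squarefree ideal. -/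
def nb {P : Type} (N : P → ℕ) (b : Finset P) : ℕ := ∏ q ∈ b, N q

/-- A multiplicative function on squarefree ideals. -/
def wt {P : Type} (f : P → ℝ) (b : Finset P) : ℝ := ∏ q ∈ b, f q

/-- `∑_{N q ≤ x} f(q)/N(q)`. -/
noncomputable def ms {P : Type} (N : P → ℕ) (f : P → ℝ) (x : ℝ) : ℝ := ∑ q ∈ pr N x, f q / N q

/-- `∑_{y < N q ≤ x} f(q)/N(q)`. -/
noncomputable def mw {P : Type} (N : P → ℕ) (f : P → ℝ) (y x : ℝ) : ℝ :=
  ∑ q ∈ (pr N x).filter (fun q ↦ y < N q), f q / N q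

/-- The order of magnitude `(X/log X) exp(∑_{N q ≤ X} f(q)/N(q))` of `∑_{N b ≤ X} f(b)`. -/
noncomputable def mag {P : Type} (N : P → ℕ) (f : P → ℝ) (X : ℝ) : ℝ :=
  X / log X * exp (ms N f X)

/-- `f` has average at least `κ`: `∑_{y < N q ≤ x} f(q)/N(q) ≥ κ (log log x - log log y) - B`. -/
def Avg {P : Type} (N : P → ℕ) (f : P → ℝ) (κ B : ℝ) : Prop :=
  ∀ y x : ℝ, 2 ≤ y → y ≤ x → κ * (log (log x) - log (log y)) - B ≤ mw N f y x

/-- Chebyshev's lower bound for the weights `f`: `∑_{x/B < N q ≤ B x} f(q) log N(q) ≥ c x` for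
`x ≥ x₀`. -/
def ChLow {P : Type} (N : P → ℕ) (f : P → ℝ) : Prop :=
  ∃ c B x₀ : ℝ, 0 < c ∧ 1 ≤ B ∧ ∀ x : ℝ, x₀ ≤ x →
    c * x ≤ ∑ q ∈ (pr N (B * x)).filter (fun q ↦ x / B < N q), f q * log (N q)

theorem PSys.nonneg {P : Type} {N : P → ℕ} {C : ℝ} (h : PSys N C) : 0 ≤ C := by
  have := h.cheb 1 ∅ le_rfl (by simp)
  simpa using this

theorem finite_le {P : Type} {N : P → ℕ} {C : ℝ} (h : PSys N C) (x : ℝ) :
    {q : P | (N q : ℝ) ≤ x}.Finite := by
  by_contra hinf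
  have hinf : {q : P | (N q : ℝ) ≤ x}.Infinite := hinf
  have hl : 0 < log 2 := log_pos (by norm_num)
  set y : ℝ := max x 1 with hy
  obtain ⟨n, hn⟩ := exists_nat_gt (C * y / log 2)
  obtain ⟨F, hF, hc⟩ := hinf.exists_subset_card_eq n
  have h1 := h.cheb y F (le_max_right _ _) (fun q hq ↦ (hF hq).trans (le_max_left _ _))
  have h2 : ∑ q ∈ F, log 2 ≤ ∑ q ∈ F, log (N q) := by
    refine Finset.sum_le_sum fun q _ ↦ log_le_log (by norm_num) ?_
    exact_mod_cast h.two q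
  rw [Finset.sum_const, hc, nsmul_eq_mul] at h2
  rw [div_lt_iff₀ hl] at hn
  linarith

theorem mem_pr {P : Type} {N : P → ℕ} {C : ℝ} (h : PSys N C) {x : ℝ} {q : P} :
    q ∈ pr N x ↔ (N q : ℝ) ≤ x := by
  unfold pr
  rw [dif_pos (finite_le h x)]
  simp

end Pool.Agent.Helper77.PPS
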