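import Pool.Agent.Helper77.PPS.Defs

/-!
# Project PP (MP_fc6b1e_nt), part A3 (sieve): statements about an abstract system of primes

Every statement is a `def ... : Prop` with its complete proof in the docstring. All constants depend
only on the constants quantified before them. `log` is the real logarithm.
-/

namespace Pool.Agent.Helper77.PPS

open Finset Real

/-- **P_CNT** (consequences of Chebyshev's bound).

PROOF. `log 2 ≥ 1/2`. (1) `#{q : N q ≤ x} ≤ C' x/log x` for `x ≥ 2`: `#{N q ≤ √x} log 2 ≤ C √x` if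
`√x ≥ 1`, and `#{√x < N q ≤ x} (1/2) log x ≤ C x`; and `√x ≤ 2 x/log x` because `log x = 2 log √x ≤ 2 √x`.
(2) dyadic block: for `y ≥ 2` the primes with `y < N q ≤ 2 y` satisfy
`∑ 1/N q ≤ #{...}/y ≤ (∑ log N q)/(y log y) ≤ 2 C/log y`.
(3) `∑_{N q ≤ x} log(N q)/N q ≤ C' log x`, `x ≥ 2`: the primes with `2^i < N q ≤ 2^(i+1)`
contribute at most `2^(-i) C 2^(i+1) = 2 C`, `0 ≤ i ≤ log x/log 2` (every `N q` is in one of these
intervals as `N q ≥ 2`), so the sum is `≤ 2 C (log x/log 2 + 1) ≤ C' log x`.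
(4) `∑_{y < N q ≤ x} 1/N q ≤ C' (log log x - log log y + 1/log y)`, `2 ≤ y ≤ x`: cover `(y, x]` by the
intervals `(2^i y, 2^(i+1) y]`, `0 ≤ i ≤ I = ⌊log(x/y)/log 2⌋`; by (2) the sum is at most
`∑_{i ≤ I} 2 C/(log y + i log 2)`. The term `i = 0` is `2 C/log y`; for `i ≥ 1` use
`log 2/(log y + i log 2) ≤ log(log y + i log 2) - log(log y + (i-1) log 2)`
(`-log(1 - t) ≥ t`), which telescopes to at most `log log x - log log y` (`log y + I log 2 ≤ log x`). -/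
def P_CNT : Prop :=
  ∀ C : ℝ, ∃ C' : ℝ, 0 < C' ∧ ∀ (P : Type) (N : P → ℕ), PSys N C →
    (∀ x : ℝ, 2 ≤ x → ((pr N x).card : ℝ) ≤ C' * (x / log x)) ∧
    (∀ y : ℝ, 2 ≤ y → mw N (fun _ ↦ 1) y (2 * y) ≤ C' / log y) ∧
    (∀ x : ℝ, 2 ≤ x → ∑ q ∈ pr N x, log (N q) / N q ≤ C' * log x) ∧
    ∀ y x : ℝ, 2 ≤ y → y ≤ x →
      mw N (fun _ ↦ 1) y x ≤ C' * (log (log x) - log (log y) + 1 / log y)

/-- **P_TAI** (tails). `∑ N(q)^(-s)` converges for `s > 1`; `∑_q N(q)^(-2) ≤ C'`;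
`∑_{N q > x} N(q)^(-1-1/log x) ≤ C'` for `x ≥ 2`.

PROOF (from `P_CNT` (1)). For `x ≥ 2` and `1 < s ≤ 2` let `y_i = 2^i x`; a finite set of primes with
`N q > x` is covered by the intervals `(y_i, y_(i+1)]`; such an interval contains at most
`C₁ 2 y_i/log(2 y_i) ≤ 2 C₁ y_i/log x` primes, so it contributes at most
`(2 C₁/log x) y_i^(1-s) = (2 C₁/log x) x^(1-s) r^i` with `r = 2^(1-s)`. The sum over `i` is at most
`(2 C₁/log x) x^(1-s)/(1 - r)`, and `1 - r = 1 - e^(-(s-1) log 2) ≥ (s-1)/4` for `0 < s-1 ≤ 1`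
(`1 - e^(-t) ≥ t/2` for `0 ≤ t ≤ 1`). So every finite sum is at most
`8 C₁ x^(1-s)/((s-1) log x)`. With `x = 2` and the finitely many primes of norm `2` this
gives convergence, and the bound for `s = 2`; for `s - 1 = 1/log x ≤ 1` it is `≤ 8 C₁/e`, and if
`log x < 1` (`x < e`) then `s > 2` and the sum is at most `∑ N(q)^(-2)`. For `s > 2` convergence follows
from `s = 2`. -/
def P_TAI : Prop :=
  ∀ C : ℝ, ∃ C' : ℝ, 0 < C' ∧ ∀ (P : Type) (N : P → ℕ), PSys N C →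
    (∀ s : ℝ, 1 < s → Summable fun q ↦ (N q : ℝ) ^ (-s)) ∧
    ∑' q, (N q : ℝ) ^ (-2 : ℝ) ≤ C' ∧
    ∀ x : ℝ, 2 ≤ x → ∑' q : {q : P // x < N q}, (N q.1 : ℝ) ^ (-(1 + 1 / log x)) ≤ C'

/-- **P_MER** (sums up to `x` and sums at `s = 1 + 1/log x`).

PROOF (from `P_CNT`, `P_TAI`). Let `s = 1 + 1/log x`. The series converges absolutely as `|f| ≤ 1`. The
difference of the two sums is `∑_{N q ≤ x} f(q) (1/N q - N(q)^(-s)) - ∑_{N q > x} f(q) N(q)^(-s)`. The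
second sum is bounded by `P_TAI`. For `N q ≤ x`: `0 ≤ 1/N q - N(q)^(-s) = (1/N q) (1 - e^(-log(N q)/log x))
≤ log(N q)/(N q log x)`, so the first sum is at most `C' log x/log x = C'` by `P_CNT` (3). -/
def P_MER : Prop :=
  ∀ C : ℝ, ∃ C' : ℝ, 0 < C' ∧ ∀ (P : Type) (N : P → ℕ), PSys N C →
  ∀ f : P → ℝ, (∀ q, |f q| ≤ 1) → ∀ x : ℝ, 2 ≤ x →
    (Summable fun q ↦ f q * (N q : ℝ) ^ (-(1 + 1 / log x))) ∧
    |ms N f x - ∑' q, f q * (N q : ℝ) ^ (-(1 + 1 / log x))| ≤ C'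

/-- **P_HTU** (upper bound for sums of multiplicative functions, Hall and Tenenbaum).
`∑_{N b ≤ X} f(b) ≤ C' (X/log X) exp(∑_{N q ≤ X} f(q)/N(q))`, for `X ≥ 2`, `0 ≤ f ≤ A`.

PROOF. Let `Q = pr N X` (the primes of norm `≤ X`) and `T` the set of the `b ⊆ Q` with `nb b ≤ X`;
`1 ≤ nb b`. By `nb b = ∏ N q`, `∑_{b ∈ T} f(b) log(nb b) = ∑_{b ∈ T} ∑_{q ∈ b} f(b) log(N q)`. Put
`b = b' ∪ {q}`, `q ∉ b'`, `f(b) = f(q) f(b')`, `b' ∈ T`, `N q ≤ X/nb b'`: the sum is at most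
`∑_{b' ∈ T} f(b') ∑_{N q ≤ X/nb b'} A log(N q) ≤ ∑_{b' ∈ T} f(b') A C X/nb b'` (`cheb`, since
`X/nb b' ≥ 1`). And `∑_{b ∈ T} f(b) log(X/nb b) ≤ ∑_{b ∈ T} f(b) X/nb b` (`log t ≤ t`). The sum of the two
left sides is `log X ∑_{b ∈ T} f(b)`, and
`∑_{b ∈ T} f(b)/nb b ≤ ∑_{b ⊆ Q} ∏_{q ∈ b} f(q)/N q = ∏_{q ∈ Q} (1 + f(q)/N q) ≤ exp(ms N f X)`. So
`log X ∑_{b ∈ T} f(b) ≤ (A C + 1) X exp(ms N f X)`; `C' = A C + 1`. -/
def P_HTU : Prop :=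
  ∀ C A : ℝ, ∃ C' : ℝ, 0 < C' ∧ ∀ (P : Type) (N : P → ℕ), PSys N C →
  ∀ f : P → ℝ, (∀ q, 0 ≤ f q ∧ f q ≤ A) → ∀ X : ℝ, 2 ≤ X →
    ∑ b ∈ (pr N X).powerset.filter (fun b ↦ (nb N b : ℝ) ≤ X), wt f b ≤ C' * mag N f X

/-- **P_HTE** (the same with the weight `exp(-N(b)/X)`). For `X > 0` the series
`∑_b f(b) exp(-N(b)/X)` converges; it is `≤ C' (X/log X) exp(∑_{N q ≤ X} f(q)/N(q))` for `X ≥ 2` and
`≤ C' X²` for `0 < X ≤ 2`.

PROOF (from `P_CNT`, `P_HTU`). Let `X ≥ 2`. A finite set of `b` is covered by `T_0 = {nb b ≤ X}` and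
`T_j = {2^(j-1) X < nb b ≤ 2^j X}`, `j ≥ 1`. On `T_j` the weight is `≤ exp(-2^(j-1))` (`≤ 1` for
`j = 0`), and by `P_HTU` `∑_{T_j} f(b) ≤ C₁ (2^j X/log(2^j X)) exp(ms N f (2^j X))`;
`log(2^j X) ≥ log X`, and by `P_CNT` (2) applied to the blocks `(2^i X, 2^(i+1) X]`, `i < j`:
`ms N f (2^j X) ≤ ms N f X + j A C₂/log 2`. So the contribution of `T_j` is at most
`C₁ mag N f X · 2^j exp(j κ - 2^(j-1))`, `κ = A C₂/log 2`, and the sum over `j` of the last factor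
converges (its value depends only on `C, A`). For `0 < X ≤ 2`: `nb b ≥ 1`, so
`exp(-nb b/X) ≤ exp(-1/(2X)) exp(-nb b/(2X)) ≤ 8 X² exp(-nb b/4)` (`e^(-t) ≤ 2/t²`), and
`∑_b f(b) exp(-nb b/4)` is bounded by the case `X = 4` (`mag N f 4 ≤ (4/log 4) exp(A · #{N q ≤ 4})`, and the
number of primes of norm `≤ 4` is `≤ 4 C/log 2` by `cheb`). The convergence for `X ≥ 2` follows from the
bound for finite sets of `b`, for `X < 2` by comparison with `X = 2`. -/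
def P_HTE : Prop :=
  ∀ C A : ℝ, ∃ C' : ℝ, 0 < C' ∧ ∀ (P : Type) (N : P → ℕ), PSys N C →
  ∀ f : P → ℝ, (∀ q, 0 ≤ f q ∧ f q ≤ A) →
    (∀ X : ℝ, 0 < X → Summable fun b : Finset P ↦ wt f b * exp (-(nb N b : ℝ) / X)) ∧
    (∀ X : ℝ, 2 ≤ X → ∑' b : Finset P, wt f b * exp (-(nb N b : ℝ) / X) ≤ C' * mag N f X) ∧
    ∀ X : ℝ, 0 < X → X ≤ 2 → ∑' b : Finset P, wt f b * exp (-(nb N b : ℝ) / X) ≤ C' * X ^ 2

/-- **P_LOW** (lower bound). If `f` satisfies Chebyshev's lower bound then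
`∑_{N b ≤ X} f(b) ≥ c (X/log X) exp(∑_{N q ≤ X} f(q)/N(q))` for large `X`.

PROOF (from `P_CNT`, `P_TAI`). Let `c₀, B, x₀` be the constants of `ChLow`, `C₂` that of `P_CNT`.
*(i)* For `x ≥ 2`, `0 < η ≤ 1`, `z = x^η ≥ 2`: `D = ∑_{m ⊆ pr N z} f(m)/nb m = ∏_{N q ≤ z} (1 + f(q)/N q)`, and
the `m` with `nb m > x^(1/3)` contribute at most (`σ = 1/log z`)
`x^(-σ/3) ∑_m f(m) nb(m)^(σ-1) = x^(-σ/3) ∏_{N q ≤ z} (1 + f(q) N(q)^(σ-1))`. For `N q ≤ z`,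
`N(q)^σ = e^(log(N q)/log z) ≤ 1 + 2 log(N q)/log z`, so
`1 + f(q) N(q)^(σ-1) ≤ (1 + f(q)/N q) exp(2 A log(N q)/(N q log z))` and the product is at most
`D exp(2 A C₂)` (`P_CNT` (3)). `x^(-σ/3) = e^(-1/(3η))`. Choose `η` with `e^(-1/(3η)) e^(2 A C₂) ≤ 1/2`. So
the `m ⊆ pr N z` with `nb m ≤ x^(1/3)` have `∑ f(m)/nb m ≥ D/2`.
*(ii)* `D ≥ c₁ exp(ms N f z)` because `log(1 + t) ≥ t - t²` for `t ≥ 0` and `∑_q (A/N q)²` is bounded
(`P_TAI`); and `ms N f z ≥ ms N f x - A C₂ (log(1/η) + 1/log 2)` (`P_CNT` (4)). So `D ≥ c₂ exp(ms N f x)`.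
*(iii)* Let `X` be large, `x = X`. Consider the `b = m ∪ {q}` with `m` as in (i) and
`X/(B² nb m) < N q ≤ X/nb m`; then `N q > X^(2/3)/B² > X^(1/2) ≥ nb m` and the primes of `m` have norm
`≤ nb m ≤ X^(1/3)`, so `q ∉ m` and `b` determines `q` (its only prime of norm `> X^(1/2)`) and `m`.
`nb b ≤ X`. By `ChLow` with `x = X/(B nb m) ≥ x₀` (as `nb m ≤ X^(1/3)`),
`∑_q f(q) ≥ ∑_q f(q) log(N q)/log X ≥ c₀ X/(B nb m log X)`. So
`∑_b f(b) ≥ ∑_m f(m) c₀ X/(B nb m log X) ≥ (c₀/(2B)) (X/log X) D ≥ c (X/log X) exp(ms N f X)`. -/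
def P_LOW : Prop :=
  ∀ (P : Type) (N : P → ℕ) (C A : ℝ), PSys N C → ∀ f : P → ℝ, (∀ q, 0 ≤ f q ∧ f q ≤ A) →
    ChLow N f → ∃ c X₀ : ℝ, 0 < c ∧ ∀ X : ℝ, X₀ ≤ X →
      c * mag N f X ≤ ∑ b ∈ (pr N X).powerset.filter (fun b ↦ (nb N b : ℝ) ≤ X), wt f b

/-- **P_DBL** (doubling). `mag N f (T X) ≤ C' mag N f X` for `X ≥ 2`, `T ≥ 1`, with `C'` depending on
`C, A, T`.

PROOF (from `P_CNT`). `log(T X) ≥ log X`, and `ms N f (T X) - ms N f X ≤ A mw N 1 X (T X) ≤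
A C₁ (log log(T X) - log log X + 1/log X)`, where `log(T X)/log X = 1 + log T/log X ≤ 1 + log T/log 2`. -/
def P_DBL : Prop :=
  ∀ C A T : ℝ, 1 ≤ T → ∃ C' : ℝ, 0 < C' ∧ ∀ (P : Type) (N : P → ℕ), PSys N C →
  ∀ f : P → ℝ, (∀ q, 0 ≤ f q ∧ f q ≤ A) → ∀ X : ℝ, 2 ≤ X → mag N f (T * X) ≤ C' * mag N f X

/-- The labelled squarefree ideals `e`, supported in `V`, of norm `≤ X` and class `∑ e_q c(q) = τ`. -/
def labs {P : Type} (p : ℕ) {W : Type} [AddCommGroup W] [Module (ZMod p) W] (N : P → ℕ) (V : Set P)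
    (c : P → W) (τ : W) (X : ℝ) : Set (P →₀ ZMod p) :=
  {e | (∀ q ∈ e.support, q ∈ V) ∧ (nb N e.support : ℝ) ≤ X ∧ ∑ q ∈ e.support, e q • c q = τ}

/-- **P_LAB** (labels and a class condition). Let `f = (p-1) 1_V` satisfy Chebyshev's lower bound, `W` a
finite group, `τ` in the span of the `c(q)`, `q ∈ V`. The number of `e` in `labs` is between two
positive constants times `mag N f X`, for large `X`.

PROOF (from `P_HTU`, `P_LOW`, `P_DBL`). The number of the `e` with support `b ⊆ V` is `(p-1)^|b| = wt f b`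
(and `wt f b = 0` if `b ⊄ V`). Upper bound: forget the class and use `P_HTU` (finiteness of the set too).
Lower bound: for every `γ` in the span choose `r_γ : P →₀ ZMod p` supported in `V` with
`∑ r_γ(q) c(q) = γ` (finitely many `γ`), let `R` be the union of their supports and
`f' = f` outside `R`, `0` on `R`. `f'` satisfies `ChLow` (only finitely many primes are changed: for
large `x` the interval `(x/B, B x]` contains no norm of an element of `R`), and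
`ms N f' X ≥ ms N f X - A |R|`. For `e` supported in `V ∖ R` with norm `≤ X/ρ`, `ρ = max nb(supp r_γ)`, the
element `e + r_(τ - cl(e))` is in `labs ... τ X` (disjoint supports), and `e` is its restriction to the
complement of `R`; so the map is injective. Therefore the number is at least
`∑_{nb b ≤ X/ρ} wt f' b ≥ c₁ mag N f' (X/ρ) ≥ c₁ e^(-A |R|) mag N f (X/ρ) ≥ c₂ mag N f X` (`P_LOW`,
`P_DBL` with `T = ρ`). -/
def P_LAB : Prop :=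
  ∀ (p : ℕ) [Fact p.Prime] (P : Type) (N : P → ℕ) (C : ℝ), PSys N C → ∀ V : Set P,
    ChLow N (V.indicator fun _ ↦ ((p : ℝ) - 1)) →
  ∀ (W : Type) [AddCommGroup W] [Module (ZMod p) W] [Finite W] (c : P → W) (τ : W),
    τ ∈ Submodule.span (ZMod p) (c '' V) →
  ∃ c₁ c₂ X₀ : ℝ, 0 < c₁ ∧ 0 < c₂ ∧ ∀ X : ℝ, X₀ ≤ X →
    (labs p N V c τ X).Finite ∧
    c₁ * mag N (V.indicator fun _ ↦ ((p : ℝ) - 1)) X ≤ (labs p N V c τ X).ncard ∧
    ((labs p N V c τ X).ncard : ℝ) ≤ c₂ * mag N (V.indicator fun _ ↦ ((p : ℝ) - 1)) X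

end Pool.Agent.Helper77.PPS
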