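import Pool.Agent.Helper77.PPS.Goals
import Pool.Agent.Helper42.PP.Defs
import Pool.Agent.Helper11.LE.Goals2

/-!
# Project PP (MP_fc6b1e_nt), part A3: number fields, and the sieve hypotheses of `Sys.Hyp`

`RS.S_X` are the statements of Helper38 (`Pool/Agent/Helper38/RS/Goals3.lean`).
-/

namespace Pool.Agent.Helper77.PPS

open NumberField Polynomial Module IsDedekindDomain Pool.Agent.Helper51.RP
open Pool.Agent.Helper38.RS (pz hf Gf absN)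
open Pool.Agent.Helper42.PP (Spl Base Tau)
open Pool.Agent.Helper17.PP (Sys)

/-- The norm of a prime. -/
noncomputable def nv {F : Type} [Field F] [NumberField F] (v : HeightOneSpectrum (𝓞 F)) : ℕ :=
  Ideal.absNorm v.asIdeal

/-- `g(Y) = (max 1 (log Y))^(κ-1)` (and `1` for `Y ≤ 1`). -/
noncomputable def gK (κ Y : ℝ) : ℝ := (max 1 (Real.log (max 1 Y))) ^ (κ - 1)

/-- **N_CHB** (Chebyshev's upper bound for the primes of a number field).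

PROOF. `N v ≥ 2`. Let `S` be a finite set of primes of norm `≤ x`, `n = [F : ℚ]`; for a rational prime `ℓ`
let `S_ℓ` be the set of the `v ∈ S` with `ℓ ∈ v`. Every `v` contains exactly one `ℓ`, and `ℓ ≤ N v ≤ x`
(`N v` is a power of `ℓ`). The product of the different primes `v ∈ S_ℓ` divides `(ℓ)`, whose norm is
`ℓ^n`; so `∑_{v ∈ S_ℓ} log(N v) ≤ n log ℓ`. The sum over the `ℓ ≤ x` is at most
`n θ(x) ≤ n log 4 · x` (`Chebyshev.theta_le_log4_mul_x`). -/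
def N_CHB : Prop :=
  ∀ (F : Type) [Field F] [NumberField F], ∃ C : ℝ, PSys (nv (F := F)) C

/-- **N_SPL** (the completely split primes have average `1/[E : K]`).

PROOF (from `N_CHB`, `P_MER`, `RS.S_PSM`, `RS.S_DG1`; tools: `Helper2.RL.ef_free` in
`Pool/Agent/Helper2/RL/EF1.lean`, `Helper96.RD.free_of_prime` in `Pool/Agent/Helper96/RD/NFI.lean`).
Let `g = [E : K]`, `A = Spl E S`, `1 < s ≤ 2`. Let `v ∈ A`. The primes of `E` above `v` are conjugate to a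
prime with trivial decomposition group, so all of them are `FreeP K`, there are exactly `g` of them, and
they have norm `N v` (`e f = 1`). So `g ∑_{v ∈ A} N(v)^(-s) = ∑_{W ∈ A'} N(W)^(-s)`, where `A'` is the set of
the `W` with `FreeP K W` and not above a prime of `S`. The `W ∉ A'` are above `S` (finitely many), or in the
finite set `Z₁` of `free_of_prime` (`L_FRE`), or their norm is not a prime number; by `S_DG1` they contribute at
most a constant. So by `S_PSM` for `E`, `|g ∑_{v ∈ A} N(v)^(-s) - log(1/(s-1))| ≤ C`. Let `x ≥ e` and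
`s = 1 + 1/log x ≤ 2`: `log(1/(s-1)) = log log x`, and by `P_MER` with the indicator function of `A`
the sum `ms` differs from `∑_{v ∈ A} N(v)^(-s)` by a bounded quantity. For `2 ≤ x ≤ e` everything is
bounded. -/
def N_SPL : Prop :=
  ∀ (K E : Type) [Field K] [NumberField K] [Field E] [NumberField E] [Algebra K E] [IsGalois K E]
    (S : Finset (HeightOneSpectrum (𝓞 K))), ∃ C : ℝ, ∀ x : ℝ, 2 ≤ x →
    |ms nv ((Spl E S).indicator fun _ ↦ (1 : ℝ)) x -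
      1 / (finrank K E : ℝ) * Real.log (Real.log x)| ≤ C

/-- **N_KEY** (difference bound with the weight `exp(-|N α|/Z)`; compare `RS.S_KEY`). Let `F` be totally
complex, `n = [F : ℚ]`, `v ∈ 𝓞_F`, and `e_Z(α) = (h(α)/G(α)) exp(-|N α|/Z)`. There is `C` such that for
`Z ≥ 1` and `α, α + v ≠ 0`: `|e_Z(α) - e_Z(α + v)| ≤ C Z^(1-1/(2n)) house(α)^(-(n + 1/2))`.

PROOF. Let `a = 1 - 1/(2n)`, so `0 < a < 1` and `n a = n - 1/2`. For a place `w` put `t_w = |α|_w`,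
`t'_w = |α + v|_w`; `N = absN α = ∏ t_w²`, `H = house α = max t_w`, `α' = α + v`, `N', H'`, `V = house v`
(if `v = 0` there is nothing to prove; `V ≥ 1`). `N, N', H, H' ≥ 1`. `h(α) = N³ H^(-3n)`, `G ≥ c > 0`,
`0 ≤ h/G ≤ 1` (`RS.S_GFB`). For `y > 0`: `exp(-y) ≤ y^(-a)` (`exp(y) ≥ 1 + y ≥ y^a`), so
`e_Z(α) ≤ c^(-1) N³ H^(-3n) (Z/N)^a = c^(-1) Z^a N^(3-a) H^(-3n)`. If `H ≤ 4V + 1`, the difference
is `≤ 1 ≤ Z^a (4V + 1)^(n+1/2) H^(-(n+1/2))`. Suppose `H > 4V + 1`, so `3H/4 ≤ H' ≤ 5H/4`.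
CASE 1: some `t_w ≤ 4V`. Then `N ≤ (4V)² H^(n-2)`, and
`e_Z(α) ≤ c^(-1) Z^a (4V)^(2(3-a)) H^((n-2)(3-a)-3n)`, `(n-2)(3-a) - 3n = -n a - 6 + 2a ≤ -(n + 1/2)`.
The same for `α'`: `t'_w ≤ 5V`.
CASE 2: all `t_w > 4V`. Let `t = min t_w`, `η = V/t < 1/4`. As in the proof of `S_KEY`,
`t'_w/t_w ∈ [1-η, 1+η]`, `h(α')/h(α)` and `G(α')/G(α)` are in `[q^(-1), q]`, `q = (1-η)^(-6n)`, and
`N'/N ∈ [(1-η)^n, (1+η)^n]`. So `|(h/G)(α') - (h/G)(α)| ≤ C_n η (h/G)(α)`, `|N' - N| ≤ C_n η N`,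
`N' ≥ (3/4)^n N`, and by the mean value theorem
`|exp(-N'/Z) - exp(-N/Z)| ≤ (|N' - N|/Z) exp(-(3/4)^n N/Z) ≤ C_n η (N/Z) exp(-(3/4)^n N/Z)
≤ C'_n η (N/Z)^(-a)` (`y^(1+a) exp(-b y)` is bounded). So
`|e_Z(α') - e_Z(α)| ≤ C''_n η (h/G)(α) (Z/N)^a ≤ C''_n c^(-1) V t^(-1) Z^a N^(3-a) H^(-3n)`, and with
`N ≤ t² H^(n-2)`, `2(3-a) - 1 > 0`, `t ≤ H` this is at most
`C V Z^a H^(2(3-a) - 1 + (n-2)(3-a) - 3n) = C V Z^a H^(-n a - 1) = C V Z^a H^(-(n + 1/2))`. -/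
def N_KEY : Prop :=
  ∀ (F : Type) [Field F] [NumberField F] [IsTotallyComplex F] (v : 𝓞 F), ∃ C : ℝ,
    ∀ Z : ℝ, 1 ≤ Z → ∀ α : 𝓞 F, α ≠ 0 → α + v ≠ 0 →
      |hf (α : F) / Gf (α : F) * Real.exp (-absN (α : F) / Z) -
        hf ((α + v : 𝓞 F) : F) / Gf ((α + v : 𝓞 F) : F) *
          Real.exp (-absN ((α + v : 𝓞 F) : F) / Z)| ≤
      C * Z ^ (1 - 1 / (2 * (finrank ℚ F : ℝ))) * house (α : F) ^ (-((finrank ℚ F : ℝ) + 1 / 2))

/-- **N_REC** (the exponential sum over all ideals is almost homogeneous). For `F` totally complex,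
`Θ(Z) = ∑_{I ≠ 0} exp(-N(I)/Z)` and an integer `B ≥ 1`, `|Θ(B^n Z) - B^n Θ(Z)| ≤ C Z^(1-c)` for `Z ≥ 1`, where
`n = [F : ℚ]` and `c = 1/(2n)`.

PROOF (from `N_KEY`, `RS.S_REP`, `RS.S_GFB`, `RS.S_LSM`). *Unfolding* (as `RS.S_UNF`): for an ideal `Λ ≠ 0`,
`∑_{α ∈ Λ, α ≠ 0} e_Z(α) = ∑_{J ≤ Λ principal, J ≠ 0} exp(-N(J)/Z)` (the fibre of `α ↦ (α)` is an orbit of the
units, on which `absN` is constant and `h/G` has sum 1; nonnegative terms; the right side converges,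
because the number of ideals of norm `≤ x` is `O(x)`). Let the `c_j` be given by `S_REP` for
`𝔪 = (1)`: for each nonzero `J` there is exactly one `j` with `J c_j` principal, and
`J ↦ J c_j` is a bijection from these `J` onto the nonzero principal ideals contained in `c_j`; so
`Θ(Z) = ∑_j Θ_j(N(c_j) Z)`, `Θ_j(Z) = ∑_{α ∈ c_j, α ≠ 0} e_Z(α)`. It suffices to prove the claim for
`Θ_j`, `Λ = c_j`. Choose representatives `ρ_i` of `Λ/BΛ`, `B^n` of them. `Θ_j(B^n Z)` is the sum over `i`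
of `∑_{β ∈ BΛ, β + ρ_i ≠ 0} e_{B^n Z}(β + ρ_i)`, and by `N_KEY` (`v = ρ_i`) and `S_LSM` (`r = n + 1/2`)
each of these differs from `∑_{β ∈ BΛ, β ≠ 0} e_{B^n Z}(β)` by at most `C (B^n Z)^(1-c) + 2` (the terms
`β = 0`, `β = -ρ_i` are `≤ 1`). Finally `∑_{β ∈ BΛ, β ≠ 0} e_{B^n Z}(β) =
∑_{α ∈ Λ, α ≠ 0} e_{B^n Z}(B α) = Θ_j(Z)`, because `h(B α) = h(α)`, `G(B α) = G(α)`
(`absN(B α) = B^n absN α`, `house(B α) = B house α`). -/
def N_REC : Prop :=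
  ∀ (F : Type) [Field F] [NumberField F] [IsTotallyComplex F] (B : ℕ), 1 ≤ B →
  ∃ C : ℝ, ∀ Z : ℝ, 1 ≤ Z →
    (Summable fun I : {I : Ideal (𝓞 F) // I ≠ ⊥} ↦ Real.exp (-(Ideal.absNorm I.1 : ℝ) / Z)) ∧
    |∑' I : {I : Ideal (𝓞 F) // I ≠ ⊥},
        Real.exp (-(Ideal.absNorm I.1 : ℝ) / ((B : ℝ) ^ finrank ℚ F * Z)) -
      (B : ℝ) ^ finrank ℚ F *
        ∑' I : {I : Ideal (𝓞 F) // I ≠ ⊥}, Real.exp (-(Ideal.absNorm I.1 : ℝ) / Z)| ≤
      C * Z ^ (1 - 1 / (2 * (finrank ℚ F : ℝ)))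

/-- **N_CHL** (Chebyshev's lower bound). Let `F` be totally complex. There are `c > 0`, `B ≥ 1`, `x₀` such that
for `x ≥ x₀` the primes `v` whose norm is a prime number with `x/B < N v ≤ B x` satisfy
`∑ log(N v) ≥ c x`.

PROOF (from `N_REC`, `N_CHB`). Let `Θ(Z) = ∑_{I ≠ 0} exp(-N(I)/Z)`, `Z > 0`, `n = [F : ℚ]`, `δ = 1/(2n)`.
*(i) Bounds.* The number `i(x)` of nonzero ideals of norm `≤ x` satisfies `i(x)/x → ρ > 0`
(`NumberField.Ideal.tendsto_norm_le_div_atTop`), so there are `0 < a ≤ b` with `i(x) ≤ b x` for all `x > 0`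
and `i(x) ≥ a x` for `x ≥ 1` (`i(x) ≥ 1`). Hence `Θ(Z) ≥ e^(-1) i(Z) ≥ a₁ Z` for `Z ≥ 1`,
`Θ(Z) ≤ ∑_{j ≥ 0} e^(-j) i((j+1) Z) ≤ b₁ Z`, and for `Z ≤ 1`: `Θ(Z) ≤ exp(-1/(2Z)) Θ(2Z) ≤ b₂ exp(-1/(2Z))`.
Moreover `W(x) = ∑_{I ≠ 0} |log(N(I)/x)| exp(-N(I)/x) ≤ b₃ x` for `x ≥ 1`: the `I` with
`2^j x < N(I) ≤ 2^(j+1) x`, `j ∈ ℤ`, contribute at most `b 2^(j+1) x (|j| + 1) exp(-2^j)`, and the sum over
`j ∈ ℤ` of `2^(j+1) (|j| + 1) exp(-2^j)` converges.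
*(ii) `Λ`.* For `d = v^i` (`v` prime, `i ≥ 1`) let `Λ(d) = log(N v)`, `Λ(d) = 0` for the other nonzero ideals;
`∑_{d ∣ J} Λ(d) = log(N J)`. All the terms being nonnegative,
`T(x) := ∑_{J ≠ 0} log(N J) exp(-N(J)/x) = ∑_d Λ(d) Θ(x/N(d))`.
*(iii)* Let `A = 2^(n k)`, `k ≥ 1`. `N_REC` for `B = 2^k` gives `|Θ(y) - A Θ(y/A)| ≤ C_A y^(1-δ)` for `y ≥ A`; for
`1 ≤ y ≤ A` it holds with a larger `C_A` (both terms are bounded); for `y ≤ 1` the left side is at most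
`C_A exp(-1/(2y))` by (i). Therefore
`T(x) - A T(x/A) ≤ ∑_d Λ(d) C_A (x/N d)^(1-δ) [N d ≤ x] + ∑_d Λ(d) C_A exp(-N(d)/(2x)) [N d > x]`.
*(iv) Lower bound.* `log(N J) = log x + log(N(J)/x)`:
`T(x) - A T(x/A) ≥ log x (Θ(x) - A Θ(x/A)) + A log A Θ(x/A) - W(x) - A W(x/A)
≥ -C_A x^(1-δ) log x + a₁ x log A - 2 b₃ x` for `x ≥ A`. Fix `k` with `a₁ log A ≥ 2 b₃ + 2`; so the left side is
`≥ x` for large `x`.
*(v) Upper bound.* Let `ψ(y) = ∑_{N d ≤ y} Λ(d) ≤ b₄ y`: from `N_CHB`, since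
`ψ(y) = ∑_{i ≥ 1} ∑_{N(v)^i ≤ y} log(N v) ≤ C (y + √y log y/log 2)`. By dyadic decomposition
`∑_{N d ≤ x/B} Λ(d) (x/N d)^(1-δ) ≤ b₅ x B^(-δ)` and `∑_{N d > B x} Λ(d) exp(-N(d)/(2x)) ≤ b₅ x exp(-B/4)`.
Choose `B` with `C_A b₅ (B^(-δ) + exp(-B/4)) ≤ 1/2`. Then (iii), (iv) give
`x/2 ≤ C_A B^(1-δ) ∑_{x/B < N d ≤ B x} Λ(d)`.
*(vi)* The `d` in this interval which are not primes, or primes whose norm is not a prime number, contribute
`O(√x (log x)²)`: their norm is `ℓ^f`, `f ≥ 2`, so `ℓ ≤ √(B x)`, `f ≤ log(B x)/log 2`, there are at most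
`n` primes above each `ℓ`, and `Λ(d) ≤ log(B x)`. -/
def N_CHL : Prop :=
  ∀ (F : Type) [Field F] [NumberField F] [IsTotallyComplex F],
  ChLow (nv (F := F)) ({v | (nv v).Prime}.indicator fun _ ↦ (1 : ℝ))

/-- **N_CHS** (the same for the primes of `K` which split completely in `E`).

PROOF (from `N_CHL`, `N_CHB`; tools as in `N_SPL`). For large `x` all primes `W` of `E` of prime norm `> x/B`
are outside `Z₁` and not above `S`, so they are `FreeP K`, the prime `v` of `K` below is in `Spl E S` and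
`N v = N W` (`e f = 1`); there are at most `[E : K]` such `W` above each `v`. So
`[E : K] ∑_{v ∈ Spl, x/B < N v ≤ B x} log(N v) ≥ c x`. -/
def N_CHS : Prop :=
  ∀ (K E : Type) [Field K] [NumberField K] [Field E] [NumberField E] [Algebra K E] [IsGalois K E]
    [IsTotallyComplex E] (S : Finset (HeightOneSpectrum (𝓞 K))) (a : ℝ), 0 < a →
  ChLow nv ((Spl E S).indicator fun _ ↦ a)

/-- **N_LAB** (labelled primes). Let `B` be the labelled primes `(v, e)`, `v ∈ calP`, of a `Base`. They satisfy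
Chebyshev's bound, and the sums of `1/N q` over all the labelled primes, over the visible ones and over
the other ones, of norm `≤ x`, are `κ log log x + O(1)` with `κ = (p-1)/[K₁ : K]`, `(p-1)/[M₁ : K]` and the
difference of the two.

PROOF (from `N_CHB`, `N_SPL`). There are `p - 1` labels for each `v`: every sum over labelled primes of a
function of `v` is `p - 1` times the sum over the `v ∈ calP = Spl K₁ S`; `Vis = Spl M₁ S ⊆ calP` (the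
prime `Q` of `K₁` below a free prime `W` of `M₁` is free: if `σ ∈ Gal(K₁/K)` fixes `Q`, extend it to `τ` on
`M₁`; `τ W` and `W` are above `Q`, so `τ W = g W` with `g ∈ Gal(M₁/K₁)` and `g⁻¹ τ` fixes `W`, so `τ = g` and
`σ = 1`). -/
def N_LAB : Prop :=
  ∀ (p : ℕ) [Fact p.Prime] (K M K₁ M₁ : Type) [Field K] [NumberField K] [Field M]
    [NumberField M] [Field K₁] [NumberField K₁] [Field M₁] [NumberField M₁] [Algebra K M]
    [Algebra K K₁] [Algebra K M₁] [Algebra M M₁] [Algebra K₁ M₁] [IsScalarTower K K₁ M₁]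
    [IsGalois K K₁] [IsGalois K M₁] (ε : K₁) (δ : M ≃ₐ[K] M)
    (P : (ZMod p)[X]) (B : Base p K M K₁ M₁ ε δ P),
  ∃ C : ℝ, PSys (fun q : B.LP ↦ nv q.1.1) C ∧ ∀ x : ℝ, 2 ≤ x →
    |ms (fun q : B.LP ↦ nv q.1.1) (fun _ ↦ 1) x -
      ((p : ℝ) - 1) / finrank K K₁ * Real.log (Real.log x)| ≤ C ∧
    |ms (fun q : B.LP ↦ nv q.1.1) ({q | q.1.1 ∈ B.Vis}.indicator fun _ ↦ 1) x -
      ((p : ℝ) - 1) / finrank K M₁ * Real.log (Real.log x)| ≤ C

end Pool.Agent.Helper77.PPS
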